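import Pool.Agent.Helper54.S4.Stmts

/-! Module CV of MP_308581_lc (helper97): every point lies in a facet with each apex. -/

namespace Pool.Agent.Helper54.S4

open Finset Pool.Agent.Helper54.SP

theorem cv_tri : ∀ (t : Bool) (a : ℕ), a < 6 → ∃ T ∈ TT t, (a = T.1 ∨ a = T.2.1 ∨ a = T.2.2) ∧
    T.1 < T.2.1 ∧ T.2.1 < T.2.2 ∧ T.2.2 < 6 := by
  decide

theorem cv_pt (j i : ℕ) : pt j i = 3 + 6 * j + i := rfl

theorem st_CV (h1 : ST_PT4) (h2 : ST_LV4) : ST_CV := by
  intro Γ nw X hW hF p hp3 hpN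
  obtain ⟨-, hpt, hlt, -, -, -, -⟩ := h1
  obtain ⟨hl0, -, -, hinj, -, -⟩ := h2 Γ nw hW
  constructor
  · -- the first apex
    classical
    let S : Finset ℕ := (Finset.range (N4 Γ)).filter fun q => q ≠ 1 ∧ lv Γ nw p < lv Γ nw q
    have h0 : (0 : ℕ) ∈ S := by
      refine Finset.mem_filter.2 ⟨Finset.mem_range.2 (by omega), by omega, ?_⟩
      exact hl0 p hpN (by omega)
    obtain ⟨q, hqS, hqm⟩ := Finset.exists_min_image S (lv Γ nw) ⟨0, h0⟩
    have hq := Finset.mem_filter.1 hqS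
    have hqN : q < N4 Γ := Finset.mem_range.1 hq.1
    have hq1 : q ≠ 1 := hq.2.1
    have hql : lv Γ nw p < lv Γ nw q := hq.2.2
    have hnb : Nbr (N4 Γ) (fun p => p ≠ 1) (lv Γ nw) p q := by
      refine ⟨hpN, hqN, by show p ≠ 1; omega, hq1, hql, ?_⟩
      rintro r hr hr1 ⟨hr2, hr3⟩
      have := hqm r (Finset.mem_filter.2 ⟨Finset.mem_range.2 hr, hr1, hr2⟩)
      omega
    have hpq : p ≠ q := fun h => by rw [h] at hql; exact lt_irrefl _ hql
    refine ⟨[1, p, q, N4 Γ], rfl, ?_, by simp, by simp, hF.hf p q hnb⟩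
    simp only [List.nodup_cons, List.mem_cons, List.not_mem_nil, or_false, not_or,
      not_false_iff, List.nodup_nil, and_true]
    refine ⟨⟨by omega, fun h => hq1 h.symm, by omega⟩, ⟨hpq, by omega⟩, by omega⟩
  · obtain ⟨hpe, hla, hgr⟩ := hpt p hp3
    have hj : gr p - 1 < 4 * Γ.length := (hlt Γ p hp3).1 hpN
    obtain ⟨T, hT, ha, hT1, hT2, hT3⟩ := cv_tri (tj (gr p - 1)) (la p) hla
    have hN : N4 Γ = 3 + 24 * Γ.length := rfl
    refine ⟨_, ?_, ?_, ?_, ?_, hF.tf (gr p - 1) hj T hT⟩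
    · rfl
    · simp only [List.nodup_cons, List.mem_cons, List.not_mem_nil, or_false, not_or,
        not_false_iff, List.nodup_nil, and_true, cv_pt]
      refine ⟨⟨by omega, by omega, by omega⟩, ⟨by omega, by omega⟩, by omega⟩
    · rcases ha with ha | ha | ha
      · rw [← ha, ← hpe]; simp
      · rw [← ha, ← hpe]; simp
      · rw [← ha, ← hpe]; simp
    · simp

end Pool.Agent.Helper54.S4
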