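import Pool.Agent.Helper54.S4.Stmts
import Pool.Agent.Helper52.SP.E8

/-! Module EK4 of MP_308581_lc (helper97): the keys are computable in polynomial time. -/

namespace Pool.Agent.Helper54.S4

open Finset Pool.Agent.Helper54.SP Pool.Agent.Helper54.Poly

variable {α β : Type} [TEnc α] [TEnc β]

theorem ek4_ite {P : α → Prop} [DecidablePred P] {u v : α → β} (hP : PT (fun a => decide (P a)))
    (hu : PT u) (hv : PT v) : PT (fun a => if P a then u a else v a) :=
  (PT.ite hP hu hv).congr fun a => by by_cases h : P a <;> simp [h]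

theorem ek4_lt {f g : α → ℕ} (hf : PT f) (hg : PT g) : PT (fun a => decide (f a < g a)) :=
  (PT.leN hf.succ hg).congr fun a => by
    by_cases h : f a < g a <;> simp [h]

theorem ek4_u {g : α → Gt} (hg : PT g) : PT (fun a => (g a).u) := hg.snd.snd.fst

theorem ek4_u' {g : α → Gt} (hg : PT g) : PT (fun a => (g a).u') := hg.snd.snd.snd.fst

theorem ek4_a {g : α → Gt} (hg : PT g) : PT (fun a => (g a).a) := hg.snd.snd.snd.snd.fst

theorem ek4_a' {g : α → Gt} (hg : PT g) : PT (fun a => (g a).a') := hg.snd.snd.snd.snd.snd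

theorem ek4_c {g : α → Gt} (hg : PT g) : PT (fun a => (g a).c) := hg.snd.fst

theorem ek4_k {g : α → Gt} (hg : PT g) : PT (fun a => (g a).k) := hg.fst

theorem st_EK4 (_hE8 : SP.ST_E8) : ST_EK4 := by
  intro α _ Γ nw p hΓ hnw hp
  have hp3 : PT (fun a => p a + 3) := hp.add (PT.const 3)
  have hgr : PT (fun a => gr (p a)) := e8_div hp3 6 (by norm_num)
  have hla : PT (fun a => la (p a)) := e8_mod hp3 6 (by norm_num)
  have hlen : PT (fun a => (Γ a).length) := hΓ.length
  have hj : PT (fun a => gr (p a) - 1) := hgr.sub (PT.const 1)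
  have hj2 : PT (fun a => (gr (p a) - 1) % 2) := e8_mod hj 2 (by norm_num)
  have hty : PT (fun a => ty (p a)) := PT.eqN hj2 (PT.const 1)
  have hj4 : PT (fun a => (gr (p a) - 1) / 4) := e8_div hj 4 (by norm_num)
  have hm4 : PT (fun a => (gr (p a) - 1) % 4) := e8_mod hj 4 (by norm_num)
  have hm42 : PT (fun a => (gr (p a) - 1) % 4 / 2) := e8_div hm4 2 (by norm_num)
  have hga : PT (fun a => ga (Γ a) (gr (p a) - 1)) := PT.getD hj4 hΓ (PT.const _)
  have hlt2 : PT (fun a => decide ((gr (p a) - 1) % 4 < 2)) := ek4_lt hm4 (PT.const 2)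
  have h2l : PT (fun a => 2 * (Γ a).length) := (PT.const 2).mul hlen
  have h4l : PT (fun a => 4 * (Γ a).length) := (PT.const 4).mul hlen
  have hwi : PT (fun a => wi (Γ a) (nw a) (gr (p a) - 1) (la (p a))) := by
    unfold wi
    exact ek4_ite (PT.eqN hla (PT.const 0)) ((PT.const 2).mul hj4)
      (ek4_ite (PT.eqN hla (PT.const 1)) (((PT.const 2).mul hj4).add (PT.const 1))
        (ek4_ite (PT.eqN hla (PT.const 2))
          (h2l.add (PT.ite (ek4_k hga) (PT.const 1) (PT.const 0)))
          (ek4_ite (PT.eqN hla (PT.const 3))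
            ((h2l.add (PT.const 2)).add (ek4_ite hlt2 (ek4_u hga) (ek4_a hga)))
            (ek4_ite (PT.eqN hla (PT.const 4))
              ((h2l.add (PT.const 2)).add (ek4_ite hlt2 (ek4_u' hga) (ek4_a' hga)))
              ((h2l.add (PT.const 2)).add hnw)))))
  have hrn : PT (fun a => rn (Γ a) (gr (p a) - 1)) := by
    unfold rn
    exact ((PT.const 2).mul (ek4_c hga)).add hm42
  have hou : PT (fun a => ou (gr (p a) - 1)) := by
    unfold ou
    exact ek4_ite hlt2 (PT.const 0) (PT.const 4)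
  have hpu : PT (fun a => pu (gr (p a) - 1) (la (p a))) := by
    unfold pu
    exact ek4_ite (PT.eqN hla hou) (PT.eqN hj2 (PT.const 1))
      (PT.eqN (e8_mod (hla.add hj) 2 (by norm_num)) (PT.const 0))
  have hB : PT (fun a => B4 (Γ a) (nw a)) := by
    unfold B4
    exact (PT.const 2).add (((h2l.add (PT.const 3)).add hnw).mul h4l)
  have hlv : PT (fun a => lv (Γ a) (nw a) (p a)) := by
    unfold lv
    exact ek4_ite (PT.eqN hp (PT.const 0)) hB
      (ek4_ite (ek4_lt hp (PT.const 3)) (PT.const 0)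
        (((PT.const 1).add (hwi.mul h4l)).add
          (PT.ite hpu (h2l.add hrn) ((h2l.sub (PT.const 1)).sub hrn))))
  have hN : PT (fun a => N4 (Γ a)) := by
    unfold N4
    exact (PT.const 3).add ((PT.const 24).mul hlen)
  have h2B : PT (fun a => 2 * B4 (Γ a) (nw a)) := (PT.const 2).mul hB
  have hrb : PT (fun a => rb (Γ a) (nw a) (p a)) := by
    unfold rb
    exact ek4_ite (PT.eqN hp (hN.add (PT.const 1))) ((PT.const 4).add h2B)
      (ek4_ite (PT.eqN hp hN) (PT.const 0)
        (ek4_ite (PT.eqN hp (PT.const 1)) (PT.const 1)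
          (ek4_ite (PT.eqN hp (PT.const 0)) ((PT.const 3).add h2B)
            (ek4_ite (PT.eqN hp (PT.const 2)) ((PT.const 2).add h2B)
              (ek4_ite (PT.leN (PT.const 2) hla) ((PT.const 2).add hlv)
                (((PT.const 2).add h2B).sub hlv))))))
  exact ⟨hgr, hla, hty, hlv, hrb, hN⟩

end Pool.Agent.Helper54.S4
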